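import Pool.Agent.Y856.RF.B

set_option autoImplicit false

/-!
# Nontrivial eigenvalues of the Redheffer matrix

For every `R` there is `c > 0` such that for infinitely many `n` at least `c log n` of the
`⌊log₂ n⌋ - 1` nontrivial eigenvalues of the Redheffer matrix `A(n)` have modulus larger than `R`:
a positive proportion of them. In the other direction, for every `n` only `O(log n / log R)`
eigenvalues lie outside the disc of radius `R` around `1`, so the order `log n` is the right one,
and `c` has to tend to `0` as `R` grows.
-/

namespace Pool.Agent.Results.MP_8a4b73_nt.PositiveProportion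

/-- The Redheffer matrix `A(n)`: with rows and columns numbered `1, ..., n`, the entry in row `i`
and column `j` is `1` if `j = 1` or `i ∣ j`, and `0` otherwise. (The index `i : Fin n` stands for
the number `i + 1`.) -/
def redheffer (n : ℕ) : Matrix (Fin n) (Fin n) ℂ :=
  fun i j => if (j : ℕ) = 0 ∨ ((i : ℕ) + 1) ∣ ((j : ℕ) + 1) then 1 else 0

/-- The eigenvalues of `A(n)` with algebraic multiplicity (roots of the characteristic
polynomial). -/
noncomputable def eigenvalues (n : ℕ) : Multiset ℂ := (redheffer n).charpoly.roots

/-- The eigenvalues left after removing `n - ⌊log₂ n⌋ - 1` copies of `1` and one copy each of `a`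
and `b`. For `a`, `b` the two dominant real eigenvalues these are the nontrivial eigenvalues. -/
noncomputable def remaining (n : ℕ) (a b : ℂ) : Multiset ℂ :=
  eigenvalues n - Multiset.replicate (n - Nat.log 2 n - 1) 1 - {a, b}

/-- First part: for every `R` there is `c > 0` such that for infinitely many `n`, whichever two
eigenvalues `a`, `b` are removed from the spectrum of `A(n)` together with `n - ⌊log₂ n⌋ - 1`
copies of `1`, at least `c log n` of the remaining eigenvalues (counted with multiplicity) have
modulus larger than `R`. Second part: for all `n ≥ 1` and `R > 1` at most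
`(log 2 + 3 log n) / log R` eigenvalues `x` of `A(n)` have `|x - 1| > R`. -/
theorem result :
    (∀ R : ℝ, ∃ c : ℝ, 0 < c ∧ ∀ N : ℕ, ∃ n ≥ N, ∀ a b : ℂ,
      c * Real.log n ≤ (Multiset.card ((remaining n a b).filter (fun x => R < ‖x‖)) : ℝ)) ∧
    (∀ n : ℕ, 1 ≤ n → ∀ R : ℝ, 1 < R →
      (Multiset.card ((eigenvalues n).filter (fun x => R < ‖x - 1‖)) : ℝ)
        ≤ (Real.log 2 + 3 * Real.log n) / Real.log R) :=
  ⟨fun R => Pool.Agent.Y856.RF.main R, fun _ hn _ hR => Pool.Agent.Y856.RF.card_large hn hR⟩

end Pool.Agent.Results.MP_8a4b73_nt.PositiveProportion
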